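import Mathlib

set_option autoImplicit false
open MeasureTheory Set Metric
open scoped Topology

namespace Pool.Agent.V11193.HW

/-- Euclidean space. -/
abbrev E (n : ℕ) := EuclideanSpace ℝ (Fin n)

variable {n : ℕ}

lemma integrable_cc {f : E n → ℝ} (hf : Continuous f) (hc : HasCompactSupport f) :
    Integrable f := hf.integrable_of_hasCompactSupport hc

/-- `∫ (x·∇h + n h) = 0`. -/
lemma euler_div (h : E n → ℝ) (hh : ContDiff ℝ 1 h) (hc : HasCompactSupport h) :
    ∫ x, (fderiv ℝ h x x + n * h x) = 0 := by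
  have hd : Differentiable ℝ h := hh.differentiable (by norm_num)
  have hcd : Continuous (fderiv ℝ h) := hh.continuous_fderiv (by norm_num)
  have hcs : HasCompactSupport (fderiv ℝ h) := hc.fderiv ℝ
  have key : ∀ i : Fin n, ∫ x : E n, x i * fderiv ℝ h x (EuclideanSpace.single i 1)
      = - ∫ x : E n, h x := by
    intro i
    have hco : Continuous (fun x : E n => x i) := (EuclideanSpace.proj i : E n →L[ℝ] ℝ).continuous
    have hfd : ∀ x : E n, fderiv ℝ (fun x : E n => x i) x (EuclideanSpace.single i 1) = 1 := by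
      intro x
      have : fderiv ℝ (fun x : E n => x i) x = (EuclideanSpace.proj i : E n →L[ℝ] ℝ) :=
        (EuclideanSpace.proj i : E n →L[ℝ] ℝ).fderiv
      rw [this]; simp
    have hi1 : Continuous (fun x : E n => fderiv ℝ h x (EuclideanSpace.single i 1)) :=
      hcd.clm_apply continuous_const
    have hi2 : HasCompactSupport (fun x : E n => fderiv ℝ h x (EuclideanSpace.single i 1)) := by
      exact hcs.comp_left (g := fun L : E n →L[ℝ] ℝ => L (EuclideanSpace.single i 1)) (by simp)
    have := integral_mul_fderiv_eq_neg_fderiv_mul_of_integrable (μ := (volume : Measure (E n)))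
      (f := fun x : E n => x i) (g := h) (v := EuclideanSpace.single i 1)
      (by
        refine (integrable_cc hh.continuous hc).congr (Filter.Eventually.of_forall fun x => ?_)
        simp only [hfd, one_mul])
      (integrable_cc (hco.mul hi1) (hi2.mul_left))
      (integrable_cc (hco.mul hh.continuous) hc.mul_left)
      (fun x _ => (EuclideanSpace.proj i : E n →L[ℝ] ℝ).differentiableAt)
      (fun x _ => hd x)
    rw [this]
    congr 1
    refine integral_congr_ae (Filter.Eventually.of_forall fun x => ?_)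
    simp only [hfd, one_mul]
  have hsum : ∀ x : E n, fderiv ℝ h x x = ∑ i, x i * fderiv ℝ h x (EuclideanSpace.single i 1) := by
    intro x
    have hx : ∑ i, x i • (EuclideanSpace.single i (1:ℝ) : E n) = x := by
      have := (EuclideanSpace.basisFun (Fin n) ℝ).sum_repr x
      simpa using this
    calc fderiv ℝ h x x = fderiv ℝ h x (∑ i, x i • (EuclideanSpace.single i (1:ℝ) : E n)) := by rw [hx]
      _ = _ := by rw [map_sum]; simp
  have hint : ∀ i : Fin n, Integrable (fun x : E n => x i * fderiv ℝ h x (EuclideanSpace.single i 1)) := by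
    intro i
    have hco : Continuous (fun x : E n => x i) := (EuclideanSpace.proj i : E n →L[ℝ] ℝ).continuous
    have hi1 : Continuous (fun x : E n => fderiv ℝ h x (EuclideanSpace.single i 1)) :=
      hcd.clm_apply continuous_const
    have hi2 : HasCompactSupport (fun x : E n => fderiv ℝ h x (EuclideanSpace.single i 1)) := by
      exact hcs.comp_left (g := fun L : E n →L[ℝ] ℝ => L (EuclideanSpace.single i 1)) (by simp)
    exact integrable_cc (hco.mul hi1) (hi2.mul_left)
  simp only [hsum]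
  rw [integral_add (integrable_finsetSum _ fun i _ => hint i)
    ((integrable_cc hh.continuous hc).const_mul _), integral_finsetSum _ fun i _ => hint i]
  simp only [key]
  rw [integral_const_mul]
  simp

/-- The weight `1 + |x|²`. -/
noncomputable def J (x : E n) : ℝ := 1 + ‖x‖ ^ 2

lemma J_pos (x : E n) : 0 < J x := by unfold J; positivity
lemma one_le_J (x : E n) : 1 ≤ J x := by unfold J; nlinarith [sq_nonneg ‖x‖]

lemma contDiff_J {k : WithTop ℕ∞} : ContDiff ℝ k (J : E n → ℝ) := by
  unfold J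
  exact contDiff_const.add (contDiff_norm_sq ℝ)

lemma contDiff_Jp {k : WithTop ℕ∞} (p : ℝ) : ContDiff ℝ k (fun x : E n => J x ^ p) :=
  contDiff_J.rpow_const_of_ne fun x => (J_pos x).ne'

lemma hasFDerivAt_J (x : E n) : HasFDerivAt (J : E n → ℝ) ((2 : ℝ) • innerSL ℝ x) x := by
  have h1 : HasFDerivAt (fun x : E n => ‖x‖ ^ 2) ((2 : ℝ) • innerSL ℝ x) x := by
    refine (hasStrictFDerivAt_norm_sq x).hasFDerivAt.congr_fderiv ?_
    rw [two_smul, two_smul]
  exact h1.const_add 1

lemma fderiv_Jp (p : ℝ) (x v : E n) :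
    fderiv ℝ (fun x : E n => J x ^ p) x v = 2 * p * J x ^ (p - 1) * inner ℝ x v := by
  have h := (hasFDerivAt_J x).rpow_const (p := p) (Or.inl (J_pos x).ne')
  rw [h.fderiv]
  simp
  ring

/-- The gradient. -/
noncomputable def gr (u : E n → ℝ) (x : E n) : E n :=
  (InnerProductSpace.toDual ℝ (E n)).symm (fderiv ℝ u x)

lemma norm_gr (u : E n → ℝ) (x : E n) : ‖gr u x‖ = ‖fderiv ℝ u x‖ := by
  unfold gr; exact LinearIsometryEquiv.norm_map _ _

lemma inner_gr (u : E n → ℝ) (x v : E n) : inner ℝ (gr u x) v = fderiv ℝ u x v := by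
  unfold gr; exact InnerProductSpace.toDual_symm_apply

/-- Divergence identity for `u² J^{α-1}`. -/
lemma star (α : ℝ) (u : E n → ℝ) (hu : ContDiff ℝ 1 u) (hc : HasCompactSupport u) :
    ∫ x, (2 * u x * fderiv ℝ u x x * J x ^ (α - 1)
      + 2 * (α - 1) * u x ^ 2 * ‖x‖ ^ 2 * J x ^ (α - 2) + n * (u x ^ 2 * J x ^ (α - 1))) = 0 := by
  have hh : ContDiff ℝ 1 (fun x : E n => u x ^ 2 * J x ^ (α - 1)) := (hu.pow 2).mul (contDiff_Jp _)
  have hhc : HasCompactSupport (fun x : E n => u x ^ 2 * J x ^ (α - 1)) := by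
    have : HasCompactSupport (fun x : E n => u x ^ 2) := hc.comp_left (g := fun t : ℝ => t ^ 2) (by simp)
    exact this.mul_right
  rw [← euler_div _ hh hhc]
  refine integral_congr_ae (Filter.Eventually.of_forall fun x => ?_)
  have hd : DifferentiableAt ℝ u x := hu.differentiable (by norm_num) x
  have hJ : DifferentiableAt ℝ (fun x : E n => J x ^ (α - 1)) x :=
    (contDiff_Jp (k := 1) (α - 1)).differentiable (by norm_num) x
  have h1 : fderiv ℝ (fun x : E n => u x ^ 2 * J x ^ (α - 1)) x x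
      = 2 * u x * fderiv ℝ u x x * J x ^ (α - 1)
        + u x ^ 2 * (2 * (α - 1) * J x ^ (α - 2) * ‖x‖ ^ 2) := by
    have hp : DifferentiableAt ℝ (fun x : E n => u x ^ 2) x := hd.pow 2
    rw [fderiv_fun_mul hp hJ]
    have h2 : fderiv ℝ (fun x : E n => u x ^ 2) x x = 2 * u x * fderiv ℝ u x x := by
      rw [fderiv_fun_pow 2 hd]; simp
    have h3 := fderiv_Jp (α - 1) x x
    rw [show α - 1 - 1 = α - 2 by ring, real_inner_self_eq_norm_sq] at h3
    simp only [_root_.add_apply, _root_.smul_apply, smul_eq_mul, h2, h3]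
    ring
  simp only [h1]
  ring

lemma Jpow_sub_one (α : ℝ) (x : E n) : J x ^ (α - 1) = J x ^ (α - 2) * J x := by
  rw [show α - 1 = (α - 2) + 1 by ring, Real.rpow_add (J_pos x), Real.rpow_one]

lemma Jpow_self (α : ℝ) (x : E n) : J x ^ α = J x ^ (α - 2) * J x ^ 2 := by
  rw [show α = (α - 2) + (2 : ℕ) by push_cast; ring, Real.rpow_add (J_pos x), Real.rpow_natCast]
  norm_num

/-- The energy identity. -/
lemma energy (α s : ℝ) (u : E n → ℝ) (hu : ContDiff ℝ 1 u) (hc : HasCompactSupport u) :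
    ∫ x, J x ^ α * ‖fderiv ℝ u x‖ ^ 2 = (∫ x, J x ^ α * ‖gr u x + (2 * s * u x / J x) • x‖ ^ 2)
      + ∫ x, u x ^ 2 * J x ^ (α - 2)
          * (2 * s * n * J x + 4 * s * (α - 1) * ‖x‖ ^ 2 - 4 * s ^ 2 * ‖x‖ ^ 2) := by
  have hst := star α u hu hc
  have hcu : Continuous u := hu.continuous
  have hcf : Continuous (fderiv ℝ u) := hu.continuous_fderiv (by norm_num)
  have hcfx : Continuous (fun x : E n => fderiv ℝ u x x) := hcf.clm_apply continuous_id
  have hJc : Continuous (J : E n → ℝ) := (contDiff_J (k := 0)).continuous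
  have hJp : ∀ p : ℝ, Continuous (fun x : E n => J x ^ p) := fun p => (contDiff_Jp (k := 0) p).continuous
  have hgr : Continuous (gr u) := (InnerProductSpace.toDual ℝ (E n)).symm.continuous.comp hcf
  have hsuppu : ∀ x : E n, x ∉ tsupport u → u x = 0 := fun x hx => image_eq_zero_of_notMem_tsupport hx
  have hsuppf : ∀ x : E n, x ∉ tsupport u → fderiv ℝ u x = 0 := fun x hx =>
    image_eq_zero_of_notMem_tsupport (fun h => hx (tsupport_fderiv_subset ℝ h))
  have hsuppg : ∀ x : E n, x ∉ tsupport u → gr u x = 0 := fun x hx => by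
    unfold gr; rw [hsuppf x hx, map_zero]
  have hcs : ∀ F : E n → ℝ, (∀ x, x ∉ tsupport u → F x = 0) → HasCompactSupport F := fun F hF =>
    HasCompactSupport.intro hc hF
  -- integrability
  have iA : Integrable (fun x : E n => J x ^ α * ‖fderiv ℝ u x‖ ^ 2) :=
    integrable_cc ((hJp α).mul (hcf.norm.pow 2)) (hcs _ fun x hx => by rw [hsuppf x hx]; simp)
  have iB : Integrable (fun x : E n => J x ^ α * ‖gr u x + (2 * s * u x / J x) • x‖ ^ 2) := by
    refine integrable_cc ((hJp α).mul ((hgr.add (Continuous.smul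
      ((continuous_const.mul hcu).div hJc fun x => (J_pos x).ne') continuous_id)).norm.pow 2))
      (hcs _ fun x hx => by rw [hsuppg x hx, hsuppu x hx]; simp)
  have iC : Integrable (fun x : E n => u x ^ 2 * J x ^ (α - 2)
          * (2 * s * n * J x + 4 * s * (α - 1) * ‖x‖ ^ 2 - 4 * s ^ 2 * ‖x‖ ^ 2)) := by
    refine integrable_cc (((hcu.pow 2).mul (hJp _)).mul (by fun_prop))
      (hcs _ fun x hx => by rw [hsuppu x hx]; simp)
  have iD : Integrable (fun x : E n => 2 * u x * fderiv ℝ u x x * J x ^ (α - 1)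
      + 2 * (α - 1) * u x ^ 2 * ‖x‖ ^ 2 * J x ^ (α - 2) + n * (u x ^ 2 * J x ^ (α - 1))) := by
    have c1 := hJp (α - 1)
    have c2 := hJp (α - 2)
    refine integrable_cc (by fun_prop) (hcs _ fun x hx => by rw [hsuppu x hx]; simp)
  rw [← integral_add iB iC]
  have e : ∫ x, J x ^ α * ‖fderiv ℝ u x‖ ^ 2 = (∫ x : E n, (J x ^ α * ‖fderiv ℝ u x‖ ^ 2))
      + 2 * s * ∫ x : E n, (2 * u x * fderiv ℝ u x x * J x ^ (α - 1)
      + 2 * (α - 1) * u x ^ 2 * ‖x‖ ^ 2 * J x ^ (α - 2) + n * (u x ^ 2 * J x ^ (α - 1))) := by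
    rw [hst]; ring
  rw [e, ← integral_const_mul, ← integral_add iA (iD.const_mul _)]
  refine integral_congr_ae (Filter.Eventually.of_forall fun x => ?_)
  have hn : ‖gr u x + (2 * s * u x / J x) • x‖ ^ 2 = ‖fderiv ℝ u x‖ ^ 2
      + 4 * s * u x / J x * fderiv ℝ u x x + 4 * s ^ 2 * u x ^ 2 / J x ^ 2 * ‖x‖ ^ 2 := by
    rw [@norm_add_sq_real, norm_gr, inner_smul_right, inner_gr, norm_smul, mul_pow, Real.norm_eq_abs,
      sq_abs]
    ring
  simp only [hn, Jpow_sub_one α x, Jpow_self α x]
  have hJ0 := (J_pos x).ne'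
  field_simp
  ring

end Pool.Agent.V11193.HW
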