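import Pool.Agent.V11193.HW.Basic

set_option autoImplicit false
open MeasureTheory Set Metric
open scoped Topology ContDiff

namespace Pool.Agent.V11193.HW

variable {n : ℕ}

/-- Numerator. -/
noncomputable def Nu (α : ℝ) (u : E n → ℝ) : ℝ := ∫ x, J x ^ α * ‖fderiv ℝ u x‖ ^ 2

/-- Denominator. -/
noncomputable def De (α : ℝ) (u : E n → ℝ) : ℝ := ∫ x, J x ^ (α - 1) * u x ^ 2

lemma cJp (p : ℝ) : Continuous (fun x : E n => J x ^ p) := (contDiff_Jp (k := 0) p).continuous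

lemma Jp_pos (p : ℝ) (x : E n) : 0 < J x ^ p := Real.rpow_pos_of_pos (J_pos x) _

lemma int_De (α : ℝ) (u : E n → ℝ) (hu : Continuous u) (hc : HasCompactSupport u) :
    Integrable (fun x : E n => J x ^ (α - 1) * u x ^ 2) := by
  refine integrable_cc ((cJp _).mul (hu.pow 2)) ?_
  exact HasCompactSupport.intro hc fun x hx => by rw [image_eq_zero_of_notMem_tsupport hx]; simp

/-- Case A: `s = α - 1`. -/
lemma energyA (α : ℝ) (u : E n → ℝ) (hu : ContDiff ℝ 1 u) (hc : HasCompactSupport u) :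
    Nu α u = (∫ x, J x ^ α * ‖gr u x + (2 * (α - 1) * u x / J x) • x‖ ^ 2)
      + 2 * n * (α - 1) * De α u := by
  unfold Nu De
  rw [energy α (α - 1) u hu hc, ← integral_const_mul]
  congr 1
  refine integral_congr_ae (Filter.Eventually.of_forall fun x => ?_)
  simp only [Jpow_sub_one α x]
  ring

/-- Case B: `s = (n + 2α - 2)/4`. -/
lemma energyB (α : ℝ) (u : E n → ℝ) (hu : ContDiff ℝ 1 u) (hc : HasCompactSupport u) :
    Nu α u = (∫ x, J x ^ α * ‖gr u x + (2 * ((n + 2 * α - 2) / 4) * u x / J x) • x‖ ^ 2)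
      + (n + 2 * α - 2) ^ 2 / 4 * De α u
      + (n + 2 * α - 2) * (n + 2 - 2 * α) / 4 * ∫ x, J x ^ (α - 2) * u x ^ 2 := by
  unfold Nu De
  have i2 : Integrable (fun x : E n => J x ^ (α - 2) * u x ^ 2) := by
    have := int_De (α - 1) u hu.continuous hc
    rwa [show α - 1 - 1 = α - 2 by ring] at this
  rw [energy α ((n + 2 * α - 2) / 4) u hu hc, ← integral_const_mul, ← integral_const_mul, add_assoc,
    ← integral_add ((int_De α u hu.continuous hc).const_mul _) (i2.const_mul _)]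
  congr 1
  refine integral_congr_ae (Filter.Eventually.of_forall fun x => ?_)
  simp only [Jpow_sub_one α x]
  have : ‖x‖ ^ 2 = J x - 1 := by unfold J; ring
  rw [this]
  ring

lemma sq_nonneg_int (α s : ℝ) (u : E n → ℝ) :
    0 ≤ ∫ x, J x ^ α * ‖gr u x + (2 * s * u x / J x) • x‖ ^ 2 :=
  integral_nonneg fun x => mul_nonneg (Jp_pos _ _).le (sq_nonneg _)

lemma lowerA (α : ℝ) (u : E n → ℝ) (hu : ContDiff ℝ 1 u) (hc : HasCompactSupport u) :
    2 * n * (α - 1) * De α u ≤ Nu α u := by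
  rw [energyA α u hu hc]
  linarith [sq_nonneg_int α (α - 1) u]

lemma lowerB (α : ℝ) (h1 : 0 ≤ n + 2 * α - 2) (h2 : 0 ≤ n + 2 - 2 * α)
    (u : E n → ℝ) (hu : ContDiff ℝ 1 u) (hc : HasCompactSupport u) :
    (n + 2 * α - 2) ^ 2 / 4 * De α u ≤ Nu α u := by
  rw [energyB α u hu hc]
  have h3 : 0 ≤ ∫ x : E n, J x ^ (α - 2) * u x ^ 2 :=
    integral_nonneg fun x => mul_nonneg (Jp_pos _ _).le (sq_nonneg _)
  have h4 : 0 ≤ (n + 2 * α - 2) * (n + 2 - 2 * α) / 4 * ∫ x : E n, J x ^ (α - 2) * u x ^ 2 :=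
    mul_nonneg (by positivity) h3
  linarith [sq_nonneg_int α ((n + 2 * α - 2) / 4) u]

lemma De_pos (α : ℝ) (u : E n → ℝ) (hu : Continuous u) (hc : HasCompactSupport u) (h0 : u ≠ 0) :
    0 < De α u := by
  unfold De
  obtain ⟨x, hx⟩ := Function.ne_iff.mp h0
  refine Continuous.integral_pos_of_hasCompactSupport_nonneg_nonzero
    ((cJp _).mul (hu.pow 2)) ?_ (fun x => mul_nonneg (Jp_pos _ _).le (sq_nonneg _))
    (x := x) (by
      have : u x ≠ 0 := by simpa using hx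
      exact mul_ne_zero (Jp_pos _ _).ne' (pow_ne_zero _ this))
  exact HasCompactSupport.intro hc fun x hx => by rw [image_eq_zero_of_notMem_tsupport hx]; simp

/-- The cut-off. -/
noncomputable def chi : ContDiffBump (0 : E n) := ⟨1, 2, one_pos, one_lt_two⟩

/-- The scaled cut-off. -/
noncomputable def chiR (R : ℝ) (x : E n) : ℝ := (chi : ContDiffBump (0 : E n)) (R⁻¹ • x)

/-- The test function. -/
noncomputable def tf (s R : ℝ) (x : E n) : ℝ := J x ^ (-s) * chiR R x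

lemma contDiff_chiR {k : ℕ∞} (R : ℝ) : ContDiff ℝ k (chiR R : E n → ℝ) := by
  unfold chiR
  exact chi.contDiff.comp (contDiff_const_smul _)

lemma contDiff_tf {k : ℕ∞} (s R : ℝ) : ContDiff ℝ k (tf s R : E n → ℝ) :=
  (contDiff_Jp _).mul (contDiff_chiR R)

lemma chiR_one {R : ℝ} (hR : 0 < R) {x : E n} (hx : ‖x‖ ≤ R) : chiR R x = 1 := by
  unfold chiR
  refine ContDiffBump.one_of_mem_closedBall _ ?_
  rw [mem_closedBall_zero_iff, norm_smul, norm_inv, Real.norm_eq_abs, abs_of_pos hR]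
  show R⁻¹ * ‖x‖ ≤ 1
  rw [inv_mul_le_iff₀ hR]; linarith

lemma chiR_zero {R : ℝ} (hR : 0 < R) {x : E n} (hx : 2 * R ≤ ‖x‖) : chiR R x = 0 := by
  unfold chiR
  refine ContDiffBump.zero_of_le_dist _ ?_
  rw [dist_zero_right, norm_smul, norm_inv, Real.norm_eq_abs, abs_of_pos hR]
  show 2 ≤ R⁻¹ * ‖x‖
  rw [le_inv_mul_iff₀ hR]; linarith

lemma chiR_nonneg (R : ℝ) (x : E n) : 0 ≤ chiR R x := ContDiffBump.nonneg _
lemma chiR_le_one (R : ℝ) (x : E n) : chiR R x ≤ 1 := ContDiffBump.le_one _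

lemma supp_chiR {R : ℝ} (hR : 0 < R) : HasCompactSupport (chiR R : E n → ℝ) :=
  HasCompactSupport.intro (isCompact_closedBall (0 : E n) (2 * R)) fun x hx => by
    rw [mem_closedBall_zero_iff, not_le] at hx
    exact chiR_zero hR hx.le

lemma supp_tf {R : ℝ} (s : ℝ) (hR : 0 < R) : HasCompactSupport (tf s R : E n → ℝ) :=
  (supp_chiR hR).mul_left

lemma tf_ne_zero {R : ℝ} (s : ℝ) (hR : 0 < R) : (tf s R : E n → ℝ) ≠ 0 := by
  intro h
  have := congrFun h 0
  unfold tf at this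
  rw [chiR_one hR (by simp [hR.le])] at this
  have h2 := (Jp_pos (-s) (0 : E n)).ne'
  simp at this
  exact h2 this

/-- bound on the derivative of the cut-off -/
lemma exists_K : ∃ K : ℝ, 0 ≤ K ∧ ∀ (R : ℝ), 0 < R → ∀ x : E n,
    ‖fderiv ℝ (chiR R) x‖ ≤ K / R := by
  have h1 : Continuous (fderiv ℝ ((chi : ContDiffBump (0 : E n)) : E n → ℝ)) :=
    ((chi : ContDiffBump (0 : E n)).contDiff (n := 1)).continuous_fderiv (by norm_num)
  have h2 : HasCompactSupport (fderiv ℝ ((chi : ContDiffBump (0 : E n)) : E n → ℝ)) :=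
    (chi : ContDiffBump (0 : E n)).hasCompactSupport.fderiv ℝ
  obtain ⟨K, hK⟩ := h1.bounded_above_of_compact_support h2
  refine ⟨K, (norm_nonneg _).trans (hK 0), fun R hR x => ?_⟩
  have h3 : fderiv ℝ (chiR R : E n → ℝ) x
      = R⁻¹ • fderiv ℝ ((chi : ContDiffBump (0 : E n)) : E n → ℝ) (R⁻¹ • x) := by
    unfold chiR
    exact fderiv_comp_smul _
  rw [h3, norm_smul, norm_inv, Real.norm_eq_abs, abs_of_pos hR, div_eq_inv_mul]
  exact mul_le_mul_of_nonneg_left (hK _) (by positivity)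

lemma fderiv_chiR_inner {R : ℝ} (hR : 0 < R) {x : E n} (hx : ‖x‖ < R) :
    fderiv ℝ (chiR R) x = 0 := by
  have : (chiR R : E n → ℝ) =ᶠ[𝓝 x] fun _ => 1 := by
    filter_upwards [isOpen_ball.mem_nhds (mem_ball_zero_iff.mpr hx)] with y hy
    exact chiR_one hR (mem_ball_zero_iff.mp hy).le
  rw [this.fderiv_eq]; simp

lemma fderiv_chiR_outer {R : ℝ} (hR : 0 < R) {x : E n} (hx : 2 * R < ‖x‖) :
    fderiv ℝ (chiR R) x = 0 := by
  have hopen : IsOpen {y : E n | 2 * R < ‖y‖} := isOpen_lt continuous_const continuous_norm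
  have : (chiR R : E n → ℝ) =ᶠ[𝓝 x] fun _ => 0 := by
    filter_upwards [hopen.mem_nhds hx] with y hy
    exact chiR_zero hR (le_of_lt hy)
  rw [this.fderiv_eq]; simp

lemma tf_key (s R : ℝ) (x : E n) :
    gr (tf s R) x + (2 * s * tf s R x / J x) • x = J x ^ (-s) • gr (chiR R) x := by
  have hJ : DifferentiableAt ℝ (fun x : E n => J x ^ (-s)) x :=
    (contDiff_Jp (k := 1) (-s)).differentiable (by norm_num) x
  have hch : DifferentiableAt ℝ (chiR R : E n → ℝ) x :=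
    (contDiff_chiR (k := 1) R).differentiable (by norm_num) x
  refine ext_inner_right ℝ fun v => ?_
  rw [inner_add_left, inner_gr, inner_smul_left, inner_smul_left, inner_gr]
  have h1 : fderiv ℝ (tf s R : E n → ℝ) x v = J x ^ (-s) * fderiv ℝ (chiR R) x v
      + chiR R x * (2 * (-s) * J x ^ (-s - 1) * inner ℝ x v) := by
    have : (tf s R : E n → ℝ) = fun x => J x ^ (-s) * chiR R x := rfl
    rw [this, fderiv_fun_mul hJ hch]
    simp only [_root_.add_apply, _root_.smul_apply, smul_eq_mul, fderiv_Jp]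
  rw [h1, Real.rpow_sub_one (J_pos x).ne']
  have h2 : tf s R x = J x ^ (-s) * chiR R x := rfl
  rw [h2]
  simp
  have hJ0 := (J_pos x).ne'
  field_simp
  ring

/-- The gradient term. -/
lemma T1_eq (α s R : ℝ) :
    ∫ x : E n, J x ^ α * ‖gr (tf s R) x + (2 * s * tf s R x / J x) • x‖ ^ 2
      = ∫ x : E n, J x ^ (α - 2 * s) * ‖fderiv ℝ (chiR R) x‖ ^ 2 := by
  refine integral_congr_ae (Filter.Eventually.of_forall fun x => ?_)
  simp only
  rw [tf_key, norm_smul, mul_pow, norm_gr, Real.norm_eq_abs, abs_of_pos (Jp_pos _ _)]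
  have : J x ^ (α - 2 * s) = J x ^ α * (J x ^ (-s)) ^ 2 := by
    rw [show α - 2 * s = α + (-s) + (-s) by ring, Real.rpow_add (J_pos x), Real.rpow_add (J_pos x)]
    ring
  rw [this]
  ring

lemma De_tf (α s R : ℝ) :
    De α (tf s R : E n → ℝ) = ∫ x : E n, J x ^ (α - 1 - 2 * s) * chiR R x ^ 2 := by
  unfold De
  refine integral_congr_ae (Filter.Eventually.of_forall fun x => ?_)
  simp only [tf]
  have : J x ^ (α - 1 - 2 * s) = J x ^ (α - 1) * (J x ^ (-s)) ^ 2 := by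
    rw [show α - 1 - 2 * s = (α - 1) + (-s) + (-s) by ring, Real.rpow_add (J_pos x),
      Real.rpow_add (J_pos x)]
    ring
  rw [this]
  ring

lemma annulus_bound (q : ℝ) {R : ℝ} (hR : 1 ≤ R) {x : E n} (h1 : R ≤ ‖x‖) (h2 : ‖x‖ ≤ 2 * R) :
    J x ^ q ≤ 5 ^ |q| * (R ^ 2) ^ q := by
  have hR0 : 0 < R := by linarith
  have hx1 : R ^ 2 ≤ J x := by unfold J; nlinarith
  have hx2 : J x ≤ 5 * R ^ 2 := by unfold J; nlinarith
  have e1 : J x = (J x / R ^ 2) * R ^ 2 := by field_simp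
  have e2 : 1 ≤ J x / R ^ 2 := by rw [le_div_iff₀ (by positivity)]; linarith
  have e3 : J x / R ^ 2 ≤ 5 := by rw [div_le_iff₀ (by positivity)]; linarith
  rw [e1, Real.mul_rpow (by positivity) (by positivity)]
  refine mul_le_mul_of_nonneg_right ?_ (by positivity)
  calc (J x / R ^ 2) ^ q ≤ (J x / R ^ 2) ^ |q| :=
        Real.rpow_le_rpow_of_exponent_le e2 (le_abs_self q)
    _ ≤ 5 ^ |q| := Real.rpow_le_rpow (by positivity) e3 (abs_nonneg q)

/-- volume of the unit ball -/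
noncomputable def vb (n : ℕ) : ℝ := (volume : Measure (E n)).real (ball 0 1)

lemma vb_pos : 0 < vb n := by
  unfold vb
  exact ENNReal.toReal_pos (measure_ball_pos _ _ one_pos).ne' measure_ball_lt_top.ne

lemma vol_cb {R : ℝ} (hR : 0 ≤ R) : (volume : Measure (E n)).real (closedBall 0 R) = R ^ n * vb n := by
  unfold vb
  rw [Measure.addHaar_real_closedBall _ _ hR]
  simp

lemma exists_T1_bound (q : ℝ) : ∃ A : ℝ, 0 ≤ A ∧ ∀ R : ℝ, 1 ≤ R →
    ∫ x : E n, J x ^ q * ‖fderiv ℝ (chiR R) x‖ ^ 2 ≤ A * ((R ^ 2) ^ q * R ^ n / R ^ 2) := by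
  obtain ⟨K, hK0, hK⟩ := exists_K (n := n)
  refine ⟨5 ^ |q| * K ^ 2 * 2 ^ n * vb n, by have := vb_pos (n := n); positivity, fun R hR => ?_⟩
  have hR0 : 0 < R := by linarith
  have hb : ∀ x : E n, ‖J x ^ q * ‖fderiv ℝ (chiR R) x‖ ^ 2‖ ≤ 5 ^ |q| * (R ^ 2) ^ q * (K / R) ^ 2 := by
    intro x
    rw [Real.norm_of_nonneg (mul_nonneg (Jp_pos _ _).le (sq_nonneg _))]
    by_cases h1 : ‖x‖ < R
    · rw [fderiv_chiR_inner hR0 h1]; simp; positivity
    · by_cases h2 : 2 * R < ‖x‖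
      · rw [fderiv_chiR_outer hR0 h2]; simp; positivity
      · exact mul_le_mul (annulus_bound q hR (not_lt.mp h1) (not_lt.mp h2))
          (pow_le_pow_left₀ (norm_nonneg _) (hK R hR0 x) 2) (sq_nonneg _) (by positivity)
  have h0 : ∀ x : E n, x ∉ closedBall (0 : E n) (2 * R) →
      J x ^ q * ‖fderiv ℝ (chiR R) x‖ ^ 2 = 0 := by
    intro x hx
    rw [mem_closedBall_zero_iff, not_le] at hx
    rw [fderiv_chiR_outer hR0 hx]; simp
  rw [← setIntegral_eq_integral_of_forall_compl_eq_zero h0]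
  have h3 := norm_setIntegral_le_of_norm_le_const (μ := (volume : Measure (E n)))
    (s := closedBall (0 : E n) (2 * R)) measure_closedBall_lt_top (fun x _ => hb x)
  rw [vol_cb (by positivity)] at h3
  refine (le_abs_self _).trans (h3.trans (le_of_eq ?_))
  rw [mul_pow]
  field_simp

/-- growth of the denominator -/
lemma De_tf_ge (α s : ℝ) {R : ℝ} (hR : 0 < R) :
    ∫ x in closedBall (0 : E n) R, J x ^ (α - 1 - 2 * s) ≤ De α (tf s R : E n → ℝ) := by
  rw [De_tf]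
  have hi : Integrable (fun x : E n => J x ^ (α - 1 - 2 * s) * chiR R x ^ 2) := by
    refine integrable_cc ((cJp _).mul ((contDiff_chiR (k := 0) R).continuous.pow 2)) ?_
    exact HasCompactSupport.intro (supp_chiR hR) fun x hx => by
      rw [image_eq_zero_of_notMem_tsupport hx]; simp
  have h1 : ∫ x in closedBall (0 : E n) R, J x ^ (α - 1 - 2 * s)
      = ∫ x in closedBall (0 : E n) R, J x ^ (α - 1 - 2 * s) * chiR R x ^ 2 := by
    refine setIntegral_congr_fun measurableSet_closedBall fun x hx => ?_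
    show J x ^ (α - 1 - 2 * s) = J x ^ (α - 1 - 2 * s) * chiR R x ^ 2
    rw [chiR_one hR (mem_closedBall_zero_iff.mp hx)]; ring
  rw [h1]
  exact setIntegral_le_integral hi (Filter.Eventually.of_forall fun x =>
    mul_nonneg (Jp_pos _ _).le (sq_nonneg _))

lemma intOn (p R : ℝ) : IntegrableOn (fun x : E n => J x ^ p) (closedBall 0 R) :=
  (cJp p).continuousOn.integrableOn_compact (isCompact_closedBall _ _)

lemma G_mono (p : ℝ) {R R' : ℝ} (h : R ≤ R') :
    ∫ x in closedBall (0 : E n) R, J x ^ p ≤ ∫ x in closedBall (0 : E n) R', J x ^ p :=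
  setIntegral_mono_set (intOn p R') (Filter.Eventually.of_forall fun x => (Jp_pos _ _).le)
    (closedBall_subset_closedBall h).eventuallyLE

lemma G_one_pos (p : ℝ) : 0 < ∫ x in closedBall (0 : E n) 1, J x ^ p := by
  have h := setIntegral_ge_of_const_le_real (μ := (volume : Measure (E n)))
    (s := closedBall (0 : E n) 1) (f := fun x => J x ^ p) (c := 2 ^ (-|p|))
    measurableSet_closedBall measure_closedBall_lt_top.ne (fun x hx => by
      rw [mem_closedBall_zero_iff] at hx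
      have h2 : J x ≤ 2 := by unfold J; nlinarith [norm_nonneg x]
      calc (2 : ℝ) ^ (-|p|) ≤ J x ^ (-|p|) :=
            Real.rpow_le_rpow_of_nonpos (J_pos x) h2 (by simp)
        _ ≤ J x ^ p := Real.rpow_le_rpow_of_exponent_le (one_le_J x) (neg_abs_le p)) (intOn p 1)
  rw [vol_cb zero_le_one] at h
  refine lt_of_lt_of_le ?_ h
  have := vb_pos (n := n)
  positivity

lemma G_step {r : ℝ} (hn : 1 ≤ n) (hr : 1 ≤ r) :
    (∫ x in closedBall (0 : E n) r, J x ^ (-(n : ℝ) / 2)) + 5 ^ (-(n : ℝ) / 2) * vb n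
      ≤ ∫ x in closedBall (0 : E n) (2 * r), J x ^ (-(n : ℝ) / 2) := by
  have hr0 : 0 < r := by linarith
  have hsub : closedBall (0 : E n) r ⊆ closedBall 0 (2 * r) := closedBall_subset_closedBall (by linarith)
  have h1 := setIntegral_sdiff (μ := (volume : Measure (E n))) (measurableSet_closedBall (x := (0 : E n)) (ε := r))
    (intOn (-(n : ℝ) / 2) (2 * r)) hsub
  have h2 := setIntegral_ge_of_const_le_real (μ := (volume : Measure (E n)))
    (s := closedBall (0 : E n) (2 * r) \ closedBall 0 r) (f := fun x => J x ^ (-(n : ℝ) / 2))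
    (c := (5 * r ^ 2) ^ (-(n : ℝ) / 2))
    (measurableSet_closedBall.diff measurableSet_closedBall)
    (ne_top_of_le_ne_top measure_closedBall_lt_top.ne (measure_mono sdiff_subset)) (fun x hx => by
      have hx1 := mem_closedBall_zero_iff.mp hx.1
      refine Real.rpow_le_rpow_of_nonpos (J_pos x) ?_ (by
        have : (0 : ℝ) ≤ n := Nat.cast_nonneg n
        linarith)
      unfold J
      nlinarith [norm_nonneg x]) ((intOn _ _).mono_set sdiff_subset)
  have h3 : (volume : Measure (E n)).real (closedBall (0 : E n) (2 * r) \ closedBall 0 r)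
      = (2 ^ n - 1) * r ^ n * vb n := by
    rw [measureReal_sdiff hsub measurableSet_closedBall measure_closedBall_lt_top.ne, vol_cb (by positivity), vol_cb hr0.le, mul_pow]
    ring
  rw [h3] at h2
  have h4 : (5 * r ^ 2) ^ (-(n : ℝ) / 2) = 5 ^ (-(n : ℝ) / 2) * (r ^ n)⁻¹ := by
    rw [Real.mul_rpow (by norm_num) (by positivity), ← Real.rpow_natCast r 2, ← Real.rpow_mul hr0.le]
    congr 1
    rw [show ((2 : ℕ) : ℝ) * (-(n : ℝ) / 2) = -(n : ℝ) by push_cast; ring, Real.rpow_neg hr0.le,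
      Real.rpow_natCast]
  rw [h4] at h2
  have h5 : (1 : ℝ) ≤ 2 ^ n - 1 := by
    have : (2 : ℝ) ^ 1 ≤ 2 ^ n := pow_le_pow_right₀ (by norm_num) hn
    linarith
  have h6 : 5 ^ (-(n : ℝ) / 2) * (r ^ n)⁻¹ * ((2 ^ n - 1) * r ^ n * vb n)
      = 5 ^ (-(n : ℝ) / 2) * vb n * (2 ^ n - 1) := by
    have : r ^ n ≠ 0 := by positivity
    field_simp
  rw [h6] at h2
  have h7 : 0 < (5 : ℝ) ^ (-(n : ℝ) / 2) * vb n := mul_pos (by positivity) vb_pos
  nlinarith

lemma G_dyadic (hn : 1 ≤ n) (k : ℕ) :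
    k * (5 ^ (-(n : ℝ) / 2) * vb n) ≤ ∫ x in closedBall (0 : E n) (2 ^ k), J x ^ (-(n : ℝ) / 2) := by
  induction k with
  | zero => simpa using (G_one_pos (n := n) (-(n : ℝ) / 2)).le
  | succ k ih =>
    have := G_step hn (r := 2 ^ k) (one_le_pow₀ (by norm_num))
    rw [show (2 : ℝ) * 2 ^ k = 2 ^ (k + 1) by ring] at this
    push_cast
    linarith

/-- Case A sharpness. -/
lemma sharpA (α : ℝ) (hα : 1 + n / 2 < α) (ε : ℝ) (hε : 0 < ε) :
    ∃ R : ℝ, 0 < R ∧ Nu α (tf (α - 1) R : E n → ℝ)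
      ≤ (2 * n * (α - 1) + ε) * De α (tf (α - 1) R : E n → ℝ) := by
  obtain ⟨A, hA0, hA⟩ := exists_T1_bound (n := n) (α - 2 * (α - 1))
  have hG := G_one_pos (n := n) (α - 1 - 2 * (α - 1))
  set c0 := ∫ x in closedBall (0 : E n) 1, J x ^ (α - 1 - 2 * (α - 1)) with hc0
  have hlim : Filter.Tendsto (fun R : ℝ => A * R ^ (-(2 * α - n - 2))) Filter.atTop (𝓝 (A * 0)) :=
    (tendsto_rpow_neg_atTop (by linarith)).const_mul A
  rw [mul_zero] at hlim
  have hev := hlim.eventually (gt_mem_nhds (show (0 : ℝ) < ε * c0 by positivity))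
  obtain ⟨R, hR1, hR2⟩ := (hev.and (Filter.eventually_ge_atTop (1 : ℝ))).exists
  have hR0 : 0 < R := by linarith
  refine ⟨R, hR0, ?_⟩
  rw [energyA α _ (contDiff_tf (k := 1) _ _) (supp_tf _ hR0), T1_eq]
  have h1 := hA R hR2
  have h2 : (R ^ 2) ^ (α - 2 * (α - 1)) * R ^ n / R ^ 2 = R ^ (-(2 * α - n - 2)) := by
    rw [← Real.rpow_natCast R 2, ← Real.rpow_natCast R n, ← Real.rpow_mul hR0.le, ← Real.rpow_add hR0,
      ← Real.rpow_sub hR0]
    congr 1
    push_cast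
    ring
  rw [h2] at h1
  have h3 : c0 ≤ De α (tf (α - 1) R : E n → ℝ) := (G_mono _ hR2).trans (De_tf_ge α (α - 1) hR0)
  nlinarith

lemma int_cor (hn : 1 ≤ n) : Integrable (fun x : E n => J x ^ (-(n : ℝ) / 2 - 1)) := by
  have := integrable_rpow_neg_one_add_norm_sq (E := E n) (μ := volume) (r := (n : ℝ) + 2) (by simp)
  refine this.congr (Filter.Eventually.of_forall fun x => ?_)
  simp only [J]
  congr 1
  ring

/-- Case B sharpness. -/
lemma sharpB (hn : 1 ≤ n) (α : ℝ) (h1 : 0 ≤ n + 2 * α - 2) (h2 : 0 ≤ n + 2 - 2 * α) (ε : ℝ) (hε : 0 < ε) :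
    ∃ R : ℝ, 0 < R ∧ Nu α (tf ((n + 2 * α - 2) / 4) R : E n → ℝ)
      ≤ ((n + 2 * α - 2) ^ 2 / 4 + ε) * De α (tf ((n + 2 * α - 2) / 4) R : E n → ℝ) := by
  obtain ⟨A, hA0, hA⟩ := exists_T1_bound (n := n) (α - 2 * ((n + 2 * α - 2) / 4))
  set I := ∫ x : E n, J x ^ (-(n : ℝ) / 2 - 1) with hI
  set κ := (n + 2 * α - 2) * (n + 2 - 2 * α) / 4 with hκ
  have hκ0 : 0 ≤ κ := by positivity
  have hI0 : 0 ≤ I := integral_nonneg fun x => (Jp_pos _ _).le
  set c := (5 : ℝ) ^ (-(n : ℝ) / 2) * vb n with hc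
  have hc0 : 0 < c := mul_pos (by positivity) vb_pos
  obtain ⟨k, hk⟩ := exists_nat_ge ((A + κ * I) / (ε * c))
  rw [div_le_iff₀ (by positivity)] at hk
  set R : ℝ := 2 ^ k with hR
  have hR1 : 1 ≤ R := one_le_pow₀ (by norm_num)
  have hR0 : 0 < R := by linarith
  refine ⟨R, hR0, ?_⟩
  rw [energyB α _ (contDiff_tf (k := 1) _ _) (supp_tf _ hR0), T1_eq]
  have h3 := hA R hR1
  have h4 : (R ^ 2) ^ (α - 2 * ((n + 2 * α - 2) / 4)) * R ^ n / R ^ 2 = 1 := by
    rw [← Real.rpow_natCast R 2, ← Real.rpow_natCast R n, ← Real.rpow_mul hR0.le, ← Real.rpow_add hR0,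
      ← Real.rpow_sub hR0, ← Real.rpow_zero R]
    congr 1
    push_cast
    ring
  rw [h4, mul_one] at h3
  have h5 : k * c ≤ De α (tf ((n + 2 * α - 2) / 4) R : E n → ℝ) := by
    refine (G_dyadic hn k).trans ?_
    have := De_tf_ge (n := n) α ((n + 2 * α - 2) / 4) hR0
    rwa [show α - 1 - 2 * ((n + 2 * α - 2) / 4) = -(n : ℝ) / 2 by ring] at this
  have h6 : ∫ x : E n, J x ^ (α - 2) * tf ((n + 2 * α - 2) / 4) R x ^ 2 ≤ I := by
    have hi : Integrable (fun x : E n => J x ^ (α - 2) * tf ((n + 2 * α - 2) / 4) R x ^ 2) := by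
      have := int_De (n := n) (α - 1) (tf ((n + 2 * α - 2) / 4) R) (contDiff_tf (k := 0) _ _).continuous
        (supp_tf _ hR0)
      rwa [show α - 1 - 1 = α - 2 by ring] at this
    refine integral_mono hi (int_cor hn) fun x => ?_
    simp only [tf]
    have e1 : J x ^ (-(n : ℝ) / 2 - 1) = J x ^ (α - 2) * (J x ^ (-((n + 2 * α - 2) / 4))) ^ 2 := by
      rw [show -(n : ℝ) / 2 - 1 = (α - 2) + (-((n + 2 * α - 2) / 4)) + (-((n + 2 * α - 2) / 4)) by ring,
        Real.rpow_add (J_pos x), Real.rpow_add (J_pos x)]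
      ring
    rw [e1, mul_pow]
    have e2 : chiR R x ^ 2 ≤ 1 := pow_le_one₀ (chiR_nonneg R x) (chiR_le_one R x)
    have e3 := Jp_pos (α - 2) x
    have e4 := Jp_pos (-((n + 2 * α - 2) / 4)) x
    refine mul_le_mul_of_nonneg_left ?_ e3.le
    nlinarith [sq_nonneg (J x ^ (-((n + 2 * α - 2) / 4)))]
  have h7 : κ * ∫ x : E n, J x ^ (α - 2) * tf ((n + 2 * α - 2) / 4) R x ^ 2 ≤ κ * I :=
    mul_le_mul_of_nonneg_left h6 hκ0
  have h8 : ε * (k * c) ≤ ε * De α (tf ((n + 2 * α - 2) / 4) R : E n → ℝ) :=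
    mul_le_mul_of_nonneg_left h5 hε.le
  nlinarith

end Pool.Agent.V11193.HW
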